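import Mathlib
import Pool.Agent.H892.ZL.Stm

set_option autoImplicit false

namespace Pool.Agent.H975.ZL

open Pool.Agent.H892.ZL MvPolynomial Matrix

section

variable {E : Type} [CommRing E] [Algebra ℂ E]

/-- the derivative of a polynomial at `(x, y)` in the direction `(ξ, η)` -/
noncomputable def DD (x y ξ η : Fin 3 → E) (A : SA) : E :=
  ∑ j, aeval (Sum.elim x y) (pderiv (Sum.inl j) A) * ξ j +
    ∑ j, aeval (Sum.elim x y) (pderiv (Sum.inr j) A) * η j

theorem DD_add (x y ξ η : Fin 3 → E) (A B : SA) :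
    DD x y ξ η (A + B) = DD x y ξ η A + DD x y ξ η B := by
  unfold DD
  simp only [map_add, add_mul, Finset.sum_add_distrib]
  ring

theorem DD_neg (x y ξ η : Fin 3 → E) (A : SA) :
    DD x y ξ η (-A) = - DD x y ξ η A := by
  unfold DD
  simp only [map_neg, neg_mul, Finset.sum_neg_distrib]
  ring

theorem DD_mul (x y ξ η : Fin 3 → E) (A B : SA) :
    DD x y ξ η (A * B) = aeval (Sum.elim x y) A * DD x y ξ η B +
      aeval (Sum.elim x y) B * DD x y ξ η A := by
  unfold DD
  simp only [Derivation.leibniz, smul_eq_mul, map_add, map_mul, add_mul, Finset.sum_add_distrib,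
    mul_assoc, ← Finset.mul_sum]
  ring

theorem DD_C (x y ξ η : Fin 3 → E) (a : ℂ) : DD x y ξ η (C a) = 0 := by
  unfold DD
  simp

theorem DD_one (x y ξ η : Fin 3 → E) : DD x y ξ η 1 = 0 := by
  have := DD_C x y ξ η 1
  rwa [map_one] at this

theorem DD_zero (x y ξ η : Fin 3 → E) : DD x y ξ η 0 = 0 := by
  have := DD_C x y ξ η 0
  rwa [map_zero] at this

theorem DD_inl (x y ξ η : Fin 3 → E) (i : Fin 3) : DD x y ξ η (X (Sum.inl i)) = ξ i := by
  unfold DD
  have h1 : ∀ j : Fin 3, aeval (Sum.elim x y) (pderiv (Sum.inl j)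
      (X (Sum.inl i) : SA)) * ξ j = if j = i then ξ j else 0 := by
    intro j
    by_cases h : j = i
    · subst h
      rw [pderiv_X_self, map_one, one_mul, if_pos rfl]
    · rw [pderiv_X_of_ne (fun h' => h (by simpa using h'.symm)), map_zero, zero_mul, if_neg h]
  have h2 : ∀ j : Fin 3, aeval (Sum.elim x y) (pderiv (Sum.inr j)
      (X (Sum.inl i) : SA)) * η j = 0 := by
    intro j
    rw [pderiv_X_of_ne (by simp), map_zero, zero_mul]
  rw [Finset.sum_congr rfl fun j _ => h1 j, Finset.sum_congr rfl fun j _ => h2 j]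
  simp

theorem DD_inr (x y ξ η : Fin 3 → E) (i : Fin 3) : DD x y ξ η (X (Sum.inr i)) = η i := by
  unfold DD
  have h1 : ∀ j : Fin 3, aeval (Sum.elim x y) (pderiv (Sum.inr j)
      (X (Sum.inr i) : SA)) * η j = if j = i then η j else 0 := by
    intro j
    by_cases h : j = i
    · subst h
      rw [pderiv_X_self, map_one, one_mul, if_pos rfl]
    · rw [pderiv_X_of_ne (fun h' => h (by simpa using h'.symm)), map_zero, zero_mul, if_neg h]
  have h2 : ∀ j : Fin 3, aeval (Sum.elim x y) (pderiv (Sum.inl j)
      (X (Sum.inr i) : SA)) * ξ j = 0 := by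
    intro j
    rw [pderiv_X_of_ne (by simp), map_zero, zero_mul]
  rw [Finset.sum_congr rfl fun j _ => h2 j, Finset.sum_congr rfl fun j _ => h1 j]
  simp

theorem ev_gp (x y : Fin 3 → E) (I : Fin 6) : aeval (Sum.elim x y) (gp I) = aff x y I := by
  fin_cases I <;> simp [gp, aff, plu]

theorem DD_gp (x y ξ η : Fin 3 → E) (I : Fin 6) : DD x y ξ η (gp I) = daff x y ξ η I := by
  fin_cases I <;>
    simp [gp, aff, plu, daff, sub_eq_add_neg, DD_add, DD_neg, DD_mul, DD_inl, DD_inr] <;> ring

end

theorem t_CHAIN : S_CHAIN := by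
  intro E _ _ K x y ξ η
  have hev : ∀ K : MvPolynomial (Fin 6) ℂ, aeval (Sum.elim x y) (kap K) = aeval (aff x y) K := by
    intro K
    unfold kap
    have h1 : (aeval (Sum.elim x y) : SA →ₐ[ℂ] E).comp (aeval gp) = aeval (aff x y) := by
      ext I
      simp [ev_gp]
    rw [← h1]
    rfl
  show DD x y ξ η (kap K) = ∑ I, grad K (aff x y) I * daff x y ξ η I
  induction K using MvPolynomial.induction_on with
  | C a =>
    have h1 : kap (C a) = C a := by
      unfold kap
      rw [aeval_C]
      rfl
    rw [h1, DD_C]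
    simp [grad]
  | add P Q hP hQ =>
    have h1 : kap (P + Q) = kap P + kap Q := by unfold kap; rw [map_add]
    rw [h1, DD_add, hP, hQ, ← Finset.sum_add_distrib]
    apply Finset.sum_congr rfl
    intro I _
    simp only [grad, map_add]
    ring
  | mul_X P I hP =>
    have h1 : kap (P * X I) = kap P * gp I := by
      unfold kap
      rw [map_mul, aeval_X]
    rw [h1, DD_mul, hP, hev, ev_gp, DD_gp]
    have h2 : ∀ J, grad (P * X I) (aff x y) J * daff x y ξ η J =
        aff x y I * (grad P (aff x y) J * daff x y ξ η J) +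
          (if J = I then aeval (aff x y) P * daff x y ξ η I else 0) := by
      intro J
      unfold grad
      rw [Derivation.leibniz]
      simp only [smul_eq_mul, map_add, map_mul, aeval_X, pderiv_X]
      by_cases h : J = I
      · subst h
        rw [if_pos rfl, Pi.single_eq_same, map_one]
        ring
      · rw [if_neg h, Pi.single_eq_of_ne (fun h' => h (by first | exact h' | exact h'.symm)), map_zero]
        ring
    rw [Finset.sum_congr rfl fun J _ => h2 J, Finset.sum_add_distrib, ← Finset.mul_sum,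
      Finset.sum_ite_eq' Finset.univ I]
    simp only [Finset.mem_univ, if_true]
    ring

end Pool.Agent.H975.ZL

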