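import Mathlib
import Pool.Agent.H892.ZL.Stm

set_option autoImplicit false

namespace Pool.Agent.H975.ZL.Scal

open Pool.Agent.H892.ZL MvPolynomial Matrix

theorem ev_gp' (x y : Fin 3 → ℂ) (I : Fin 6) : eval (pt x y) (gp I) = aff x y I := by
  fin_cases I <;> simp [gp, aff, plu, pt]

theorem pair_lemma (M : Matrix (Fin 6) (Fin 6) ℂ)
    (H : ∀ (x y : Fin 3 → ℂ) (a b : Fin 6), (∑ I, M a I * aff x y I) * aff x y b =
      (∑ I, M b I * aff x y I) * aff x y a)
    (I J : Fin 6) (hIJ : I ≠ J) (x y : ℂ → Fin 3 → ℂ)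
    (hv : ∀ (t : ℂ) (k : Fin 6), aff (x t) (y t) k = if k = I then t else if k = J then -1 else 0) :
    (∀ a, a ≠ I → M a I = 0) ∧ (∀ a, a ≠ J → M a J = 0) ∧ M I I = M J J := by
  have hs : ∀ (t : ℂ) (a : Fin 6), ∑ K, M a K * aff (x t) (y t) K = t * M a I - M a J := by
    intro t a
    rw [Finset.sum_eq_add I J hIJ]
    · rw [hv, hv, if_pos rfl, if_neg hIJ.symm, if_pos rfl]
      ring
    · intro c _ hc
      rw [hv, if_neg hc.1, if_neg hc.2, mul_zero]
    · intro h
      exact absurd (Finset.mem_univ _) h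
    · intro h
      exact absurd (Finset.mem_univ _) h
  have h : ∀ (t : ℂ) (a b : Fin 6), (t * M a I - M a J) * aff (x t) (y t) b =
      (t * M b I - M b J) * aff (x t) (y t) a := by
    intro t a b
    rw [← hs, ← hs]
    exact H _ _ a b
  have hJJ : ∀ t : ℂ, aff (x t) (y t) J = -1 := fun t => by rw [hv, if_neg hIJ.symm, if_pos rfl]
  have hII : ∀ t : ℂ, aff (x t) (y t) I = t := fun t => by rw [hv, if_pos rfl]
  have e0 := h 0 I J
  have e1 := h 1 I J
  have e2 := h (-1) I J
  rw [hJJ, hII] at e0 e1 e2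
  have f1 : M I J = 0 := by linear_combination e0
  have f2 : M J I = 0 := by linear_combination -e1 / 2 - e2 / 2 + f1
  have f3 : M I I = M J J := by linear_combination -e1 / 2 + e2 / 2
  have hother : ∀ a, a ≠ I → a ≠ J → M a I = 0 ∧ M a J = 0 := by
    intro a ha1 ha2
    have g0 := h 0 a J
    have g1 := h 1 a J
    rw [hJJ, hv, if_neg ha1, if_neg ha2] at g0 g1
    have k1 : M a J = 0 := by linear_combination g0
    exact ⟨by linear_combination -g1 + k1, k1⟩
  refine ⟨fun a ha => ?_, fun a ha => ?_, f3⟩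
  · by_cases haJ : a = J
    · rw [haJ]; exact f2
    · exact (hother a ha haJ).1
  · by_cases haI : a = I
    · rw [haI]; exact f1
    · exact (hother a haI ha).2

theorem t_SCAL : S_SCAL := by
  intro M hM
  have H : ∀ (x y : Fin 3 → ℂ) (a b : Fin 6), (∑ I, M a I * aff x y I) * aff x y b =
      (∑ I, M b I * aff x y I) * aff x y a := by
    intro x y a b
    have h := congrArg (eval (pt x y)) (hM a b)
    simp only [map_mul, map_sum, eval_C, ev_gp'] at h
    exact h
  obtain ⟨c0, c4, d04⟩ := pair_lemma M H 0 4 (by decide) (fun t => ![t, 0, 0]) (fun _ => ![0, 1, 0])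
    (by intro t k; fin_cases k <;> simp [aff, plu])
  obtain ⟨-, c2, d02⟩ := pair_lemma M H 0 2 (by decide) (fun t => ![0, -t, 0]) (fun _ => ![1, 0, 0])
    (by intro t k; fin_cases k <;> simp [aff, plu])
  obtain ⟨c1, -, d12⟩ := pair_lemma M H 1 2 (by decide) (fun t => ![0, 0, -t]) (fun _ => ![1, 0, 0])
    (by intro t k; fin_cases k <;> simp [aff, plu])
  obtain ⟨-, c5, d15⟩ := pair_lemma M H 1 5 (by decide) (fun t => ![t, 0, 0]) (fun _ => ![0, 0, 1])
    (by intro t k; fin_cases k <;> simp [aff, plu])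
  obtain ⟨c3, -, d34⟩ := pair_lemma M H 3 4 (by decide) (fun t => ![0, 0, -t]) (fun _ => ![0, 1, 0])
    (by intro t k; fin_cases k <;> simp [aff, plu])
  refine ⟨M 0 0, ?_⟩
  ext a b
  rw [Matrix.smul_apply, Matrix.one_apply, smul_eq_mul]
  by_cases hab : a = b
  · rw [if_pos hab, mul_one, hab]
    fin_cases b
    · rfl
    · show M 1 1 = M 0 0
      rw [d12, d02]
    · exact d02.symm
    · show M 3 3 = M 0 0
      rw [d34, d04]
    · exact d04.symm
    · show M 5 5 = M 0 0
      rw [← d15, d12, d02]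
  · rw [if_neg hab, mul_zero]
    fin_cases b
    · exact c0 a hab
    · exact c1 a hab
    · exact c2 a hab
    · exact c3 a hab
    · exact c4 a hab
    · exact c5 a hab

end Pool.Agent.H975.ZL.Scal

namespace Pool.Agent.H975.ZL

open Pool.Agent.H892.ZL

theorem t_SCAL (_h1 : S_LIND) : S_SCAL := Scal.t_SCAL

end Pool.Agent.H975.ZL

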